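import Pool.Agent.H47.ST.Targets

namespace Pool.Agent.H11.STK
open Finset Pool.Agent.H47.ST

theorem split_unique {α : Type*} (P : α → Prop) {L1 L2 : List α} {x y : α} {R1 R2 : List α}
    (h1 : ∀ z ∈ L1, ¬ P z) (h2 : ∀ z ∈ L2, ¬ P z) (hx : P x) (hy : P y)
    (h : L1 ++ x :: R1 = L2 ++ y :: R2) : L1 = L2 ∧ x = y ∧ R1 = R2 := by
  induction L1 generalizing L2 with
  | nil =>
    cases L2 with
    | nil => simpa using h
    | cons b L2 =>
      simp only [List.nil_append, List.cons_append, List.cons.injEq] at h
      exact absurd (h.1 ▸ hx) (h2 b List.mem_cons_self)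
  | cons a L1 ih =>
    cases L2 with
    | nil =>
      simp only [List.nil_append, List.cons_append, List.cons.injEq] at h
      exact absurd (h.1 ▸ hy) (h1 a List.mem_cons_self)
    | cons b L2 =>
      simp only [List.cons_append, List.cons.injEq] at h
      obtain ⟨h3, h4⟩ := h
      obtain ⟨h5, h6, h7⟩ := ih (fun z hz => h1 z (List.mem_cons_of_mem _ hz))
        (fun z hz => h2 z (List.mem_cons_of_mem _ hz)) h4
      exact ⟨by rw [h3, h5], h6, h7⟩

theorem zero_notMem_succ (X : List ℕ) : (0 : ℕ) ∉ X.map Nat.succ := by
  intro h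
  obtain ⟨a, -, ha⟩ := List.mem_map.1 h
  exact absurd ha (Nat.succ_ne_zero a)

theorem vpl_inj {A A' : List (List ℕ)} {X X' Y Y' : List ℕ} {B B' : List (List ℕ)}
    (h : vpl (A, X, Y, B) = vpl (A', X', Y', B')) : A = A' ∧ X = X' ∧ Y = Y' ∧ B = B' := by
  have inj1 : Function.Injective (List.map Nat.succ) :=
    List.map_injective_iff.2 Nat.succ_injective
  have inj2 : Function.Injective (List.map (List.map Nat.succ)) :=
    List.map_injective_iff.2 inj1
  have h0 : ∀ C : List (List ℕ), ∀ z ∈ C.map (List.map Nat.succ), ¬ (0 ∈ z) := by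
    intro C z hz
    obtain ⟨a, -, rfl⟩ := List.mem_map.1 hz
    exact zero_notMem_succ a
  unfold vpl at h
  obtain ⟨h1, h2, h3⟩ := split_unique (fun z : List ℕ => 0 ∈ z) (h0 A) (h0 A')
    (by simp) (by simp) h
  obtain ⟨h4, -, h5⟩ := split_unique (fun z : ℕ => z = 0)
    (fun z hz hz0 => zero_notMem_succ X (hz0 ▸ hz))
    (fun z hz hz0 => zero_notMem_succ X' (hz0 ▸ hz)) rfl rfl h2
  exact ⟨inj2 h1, inj1 h4, inj1 h5, inj2 h3⟩

theorem lat_tail {c : ℕ} {l : List ℕ} (h : lat (c :: l).reverse) : lat l.reverse := by
  intro u v huv d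
  refine h u (v ++ [c]) ?_ d
  rw [List.reverse_cons, huv, List.append_assoc]

/-- counts in a lattice word are weakly decreasing -/
theorem lat_le {l : List ℕ} (h : lat l.reverse) (c d : ℕ) : l.count (c + d) ≤ l.count c := by
  induction d with
  | zero => simp
  | succ d ih =>
    have := h l.reverse [] (by simp) (c + d)
    simp only [List.count_reverse] at this
    exact le_trans this ih

theorem count_lt {k c : ℕ} {l : List ℕ} (h : lat (c :: l).reverse) (h0 : (c :: l).count 0 ≤ k) :
    l.count c < k := by
  have h1 := lat_le h 0 c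
  rw [zero_add, List.count_cons_self] at h1
  omega

theorem count_lt' {c : ℕ} {l : List ℕ} (h : lat (c :: l).reverse) (hc : 1 ≤ c) :
    l.count c < l.count (c - 1) := by
  have h1 := lat_le h (c - 1) 1
  rw [Nat.sub_add_cancel hc, List.count_cons_self, List.count_cons_of_ne (by omega)] at h1
  omega

theorem split_getD (V : List (List ℕ)) (i : ℕ) (h : i < V.length) :
    V = V.take i ++ V.getD i [] :: V.drop (i + 1) := by
  rw [List.getD_eq_getElem _ _ h, ← List.drop_eq_getElem_cons h, List.take_append_drop]

theorem row_len (V : List (List ℕ)) (i d : ℕ) (h : i < V.length)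
    (hs : V.Pairwise (fun A B => B.length ≤ A.length))
    (hc : i < (V.filter fun B => decide (d < B.length)).length) : d < (V.getD i []).length := by
  by_contra hcon
  have hcon' : (V.getD i []).length ≤ d := not_lt.1 hcon
  have hV := split_getD V i h
  rw [hV] at hs
  rw [List.pairwise_append] at hs
  obtain ⟨-, hs2, -⟩ := hs
  rw [List.pairwise_cons] at hs2
  have h1 : (V.filter fun B => decide (d < B.length)).length ≤ i := by
    conv_lhs => rw [hV]
    rw [List.filter_append, List.length_append]
    have h2 : ((V.getD i [] :: V.drop (i + 1)).filter fun B => decide (d < B.length)) = [] := by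
      rw [List.filter_eq_nil_iff]
      intro B hB
      simp only [decide_eq_true_eq, not_lt]
      rcases List.mem_cons.1 hB with rfl | hB
      · exact hcon'
      · exact le_trans (hs2.1 B hB) hcon'
    rw [h2, List.length_nil, Nat.add_zero]
    refine le_trans (List.length_filter_le _ _) ?_
    rw [List.length_take]
    exact Nat.min_le_left _ _
  omega

theorem smv_inj {k c : ℕ} {l : List ℕ} (h : lat (c :: l).reverse) (h0 : (c :: l).count 0 ≤ k)
    {V V' : List (List ℕ)} (hV : RInv k l V) (hV' : RInv k l V') {p p' : ℕ}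
    (hp : p < max c 1) (hp' : p' < max c 1) (he : smv V c p = smv V' c p') :
    V = V' ∧ p = p' := by
  obtain ⟨a1, -, a3, a4, -, -⟩ := hV
  obtain ⟨b1, -, b3, b4, -, -⟩ := hV'
  have hi := count_lt h h0
  unfold smv at he
  simp only [a3, b3] at he
  obtain ⟨e1, e2, e3, e4⟩ := vpl_inj he
  have e5 : V.getD (l.count c) [] = V'.getD (l.count c) [] := by
    have h1 := List.take_append_drop p (V.getD (l.count c) [])
    have h2 := List.take_append_drop p' (V'.getD (l.count c) [])
    rw [← h1, ← h2, e2, e3]
  have e6 : V = V' := by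
    rw [split_getD V (l.count c) (by omega), split_getD V' (l.count c) (by omega), e1, e4, e5]
  refine ⟨e6, ?_⟩
  rcases Nat.eq_zero_or_pos c with rfl | hc
  · simp at hp hp'; omega
  · have hl : c - 1 < (V.getD (l.count c) []).length := by
      refine row_len V (l.count c) (c - 1) (by omega) a4 ?_
      rw [a3]
      exact count_lt' h hc
    have hl' : c - 1 < (V'.getD (l.count c) []).length := by rw [← e6]; exact hl
    have e7 := congrArg List.length e2
    rw [List.length_take, List.length_take] at e7
    omega

theorem pf_RC (h1 : T_RI) : T_RC := by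
  intro k l
  induction l with
  | nil => intro _ _; simp [Rch]
  | cons c l ih =>
    intro hl h0
    have hl' := lat_tail hl
    have h0' : l.count 0 ≤ k := le_trans (List.count_le_count_cons) h0
    have hR := h1 k l hl' h0'
    have hcard := ih hl' h0'
    show ((Rch k l).biUnion fun V => (range (max c 1)).image (smv V c)).card = _
    rw [Finset.card_biUnion]
    · rw [Finset.sum_congr rfl (g := fun _ => max c 1)]
      · rw [Finset.sum_const, hcard, List.map_cons, List.prod_cons, smul_eq_mul, mul_comm]
      · intro V hV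
        rw [Finset.card_image_of_injOn, card_range]
        intro p hp p' hp' he
        exact (smv_inj hl h0 (hR V hV) (hR V hV) (by simpa using hp) (by simpa using hp') he).2
    · intro V hV V' hV' hne
      refine Finset.disjoint_left.2 ?_
      intro W hW hW'
      obtain ⟨p, hp, rfl⟩ := Finset.mem_image.1 hW
      obtain ⟨p', hp', he⟩ := Finset.mem_image.1 hW'
      exact hne (smv_inj hl h0 (hR V hV) (hR V' hV') (by simpa using hp) (by simpa using hp')
        he.symm).1

end Pool.Agent.H11.STK
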